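import Mathlib
import Pool.Agent.Helper707.AbSqWord

namespace Pool.Agent.Results.MP_c8175e_co.QuarterPower

/-- Parikh vector of a binary word (`true` = a, `false` = b). -/
def parikh (u : List Bool) : ℕ × ℕ := (u.count true, u.count false)

/-- The distinct abelian squares of `w`: the words `uv` with `u`, `v` nonempty,
`P(u) = P(v)`, that are factors of `w`. -/
def abSquares (w : List Bool) : Set (List Bool) :=
  {x | ∃ u v : List Bool, x = u ++ v ∧ u ≠ [] ∧ v ≠ [] ∧ parikh u = parikh v ∧ x <:+: w}

/-- `MDL(n)`: the least number of distinct abelian squares in a binary word of length `n`. -/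
noncomputable def MDL (n : ℕ) : ℕ :=
  sInf {k | ∃ w : List Bool, w.length = n ∧ (abSquares w).ncard = k}

theorem finite_abSquares (w : List Bool) : (abSquares w).Finite := by
  classical
  apply Set.Finite.subset (w.sublists.toFinset.finite_toSet)
  rintro x ⟨u, v, _, _, _, _, h⟩
  rw [Finset.mem_coe, List.mem_toFinset, List.mem_sublists]
  exact h.sublist

theorem ncard_le (w : List Bool) :
    (Helper707.AbSqWord.sqClasses w).ncard ≤ (abSquares w).ncard := by
  classical
  have hsub : Helper707.AbSqWord.sqClasses w ⊆
      (fun x : List Bool => (x.count true / 2, x.count false / 2)) '' (abSquares w) := by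
    rintro P ⟨u, v, hu, hv, hi, hP, hQ⟩
    have hP1 : (u.count true, u.count false) = P := hP
    have hQ1 : (v.count true, v.count false) = P := hQ
    refine ⟨u ++ v, ⟨u, v, rfl, hu, hv, ?_, hi⟩, ?_⟩
    · show (u.count true, u.count false) = (v.count true, v.count false)
      rw [hP1, hQ1]
    · show ((u ++ v).count true / 2, (u ++ v).count false / 2) = P
      have h1 : v.count true = P.1 := congrArg Prod.fst hQ1
      have h2 : v.count false = P.2 := congrArg Prod.snd hQ1
      have h3 : u.count true = P.1 := congrArg Prod.fst hP1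
      have h4 : u.count false = P.2 := congrArg Prod.snd hP1
      rw [List.count_append, List.count_append, h1, h2, h3, h4]
      refine Prod.ext ?_ ?_
      · show (P.1 + P.1) / 2 = P.1
        omega
      · show (P.2 + P.2) / 2 = P.2
        omega
  exact le_trans (Set.ncard_le_ncard hsub ((finite_abSquares w).image _))
    (Set.ncard_image_le (finite_abSquares w))

theorem result : ∀ n : ℕ, n + 1 < (2 * (MDL n + 1) ^ 2 + 1) ^ 2 := by
  intro n
  have hne : {k | ∃ w : List Bool, w.length = n ∧ (abSquares w).ncard = k}.Nonempty :=
    ⟨_, List.replicate n true, by simp, rfl⟩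
  obtain ⟨w, hw, hk⟩ := Nat.sInf_mem hne
  have hk' : (abSquares w).ncard = MDL n := hk
  have h1 := Helper707.AbSqWord.word_bound w
  have h2 := ncard_le w
  rw [hk'] at h2
  rw [hw] at h1
  refine lt_of_lt_of_le h1 ?_
  have h3 : (Helper707.AbSqWord.sqClasses w).ncard + 1 ≤ MDL n + 1 :=
    Nat.add_le_add_right h2 1
  gcongr

end Pool.Agent.Results.MP_c8175e_co.QuarterPower
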